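import Mathlib

/-!
# MP_c5ead3_nt: the window lemma and the converse
-/

set_option autoImplicit false

open Finset

namespace Pool.Agent.W6h22.AP

/-- `σ(m)`, the sum of the divisors of `m`. -/
def sg (m : ℕ) : ℕ := ∑ d ∈ m.divisors, d

theorem sg_prod (S : Finset ℕ) (hS : ∀ p ∈ S, p.Prime) :
    sg (∏ p ∈ S, p) = ∏ p ∈ S, (p + 1) := by
  classical
  induction S using Finset.induction_on with
  | empty => simp [sg]
  | insert a s ha ih =>
    rw [Finset.prod_insert ha, Finset.prod_insert ha]
    have hpa := hS a (mem_insert_self _ _)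
    have hc : Nat.Coprime a (∏ p ∈ s, p) := Nat.Coprime.prod_right fun p hp =>
      (Nat.coprime_primes hpa (hS p (mem_insert_of_mem hp))).2
        (fun h => ha (h ▸ hp))
    have h1 := hc.sum_divisors_mul
    have h2 := ih fun p hp => hS p (mem_insert_of_mem hp)
    have h3 : ∑ d ∈ a.divisors, d = a + 1 := hpa.sum_divisors
    unfold sg at h2 ⊢
    rw [h1, h2, h3]

theorem window (N : ℕ) (a b : ℝ) (ha : 1 < a) (hab : a < b) :
    ∃ S : Finset ℕ, (∀ p ∈ S, p.Prime ∧ N < p) ∧ a ≤ ∏ p ∈ S, (1 + 1 / (p : ℝ)) ∧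
      ∏ p ∈ S, (1 + 1 / (p : ℝ)) < b := by
  classical
  obtain ⟨M, hM⟩ := exists_nat_gt (max (N : ℝ) (a / (b - a)))
  have hMN : N < M := by exact_mod_cast (le_max_left _ _).trans_lt hM
  have hM2 : a / (b - a) < M := (le_max_right _ _).trans_lt hM
  have hM0 : (0 : ℝ) < M := by exact_mod_cast (by omega : 0 < M)
  have hM3 : a * (1 + 1 / (M : ℝ)) < b := by
    rw [div_lt_iff₀ (by linarith)] at hM2
    have : a / M < b - a := by rw [div_lt_iff₀ hM0]; linarith
    have e : a * (1 + 1 / (M : ℝ)) = a + a / M := by field_simp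
    rw [e]; linarith
  set g : ℕ → ℝ := fun i => if i.Prime ∧ M < i then 1 / (i : ℝ) else 0 with hg
  have hg0 : ∀ i, 0 ≤ g i := fun i => by simp only [hg]; split_ifs <;> positivity
  set f : ℕ → ℝ := fun m => ∏ i ∈ range m, (1 + g i) with hf
  have hf1 : ∀ m, 1 + ∑ i ∈ range m, g i ≤ f m := by
    intro m
    induction m with
    | zero => simp [hf]
    | succ m ih =>
      have h1 : f (m + 1) = f m * (1 + g m) := by simp only [hf]; rw [Finset.prod_range_succ]
      rw [h1, Finset.sum_range_succ]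
      have h2 : 1 ≤ f m := by
        have := Finset.sum_nonneg fun i (_ : i ∈ range m) => hg0 i
        linarith
      nlinarith [hg0 m]
  have hex : ∃ m, a ≤ f m := by
    by_contra hcon
    push Not at hcon
    refine not_summable_one_div_on_primes (summable_of_sum_range_le (c := a + (M + 1)) ?_ ?_)
    · intro i
      exact Set.indicator_nonneg (fun _ _ => by positivity) _
    · intro m
      have h1 : ∀ i, Set.indicator {p : ℕ | p.Prime} (fun n : ℕ => 1 / (n : ℝ)) i ≤
          g i + if i < M + 1 then 1 else 0 := by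
        intro i
        simp only [Set.indicator, Set.mem_ofPred_eq, hg]
        by_cases hp : i.Prime
        · rw [if_pos hp]
          by_cases hi : M < i
          · rw [if_pos ⟨hp, hi⟩, if_neg (by omega)]; linarith
          · rw [if_neg (by tauto), if_pos (by omega)]
            have : (1 : ℝ) ≤ i := by exact_mod_cast hp.one_lt.le
            rw [div_le_iff₀ (by linarith)]; linarith
        · rw [if_neg hp]
          split_ifs <;> positivity
      calc _ ≤ ∑ i ∈ range m, (g i + if i < M + 1 then (1 : ℝ) else 0) :=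
            Finset.sum_le_sum fun i _ => h1 i
        _ = ∑ i ∈ range m, g i + ((range m).filter fun i => i < M + 1).card := by
            rw [Finset.sum_add_distrib, Finset.sum_boole]
        _ ≤ a + (M + 1) := by
            have h2 := hf1 m
            have h3 := hcon m
            have h4 : ((range m).filter fun i => i < M + 1).card ≤ M + 1 := by
              calc _ ≤ (range (M + 1)).card := Finset.card_le_card fun i hi => by
                    simp only [mem_filter, mem_range] at hi ⊢; exact hi.2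
                _ = M + 1 := card_range _
            have h5 : (((range m).filter fun i => i < M + 1).card : ℝ) ≤ M + 1 := by
              exact_mod_cast h4
            linarith
  have hfind := Nat.find_spec hex
  set m := Nat.find hex with hm
  have hfm : f m = ∏ p ∈ (range m).filter (fun i => i.Prime ∧ M < i), (1 + 1 / (p : ℝ)) := by
    rw [Finset.prod_filter]
    refine Finset.prod_congr rfl fun i _ => ?_
    simp only [hg]
    split_ifs <;> simp
  refine ⟨(range m).filter (fun i => i.Prime ∧ M < i), fun p hp => ?_, ?_, ?_⟩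
  · simp only [mem_filter] at hp
    exact ⟨hp.2.1, by omega⟩
  · rw [← hfm]; exact hfind
  · rw [← hfm]
    have hm0 : m ≠ 0 := by
      intro h0
      rw [h0] at hfind
      simp only [hf, Finset.range_zero, Finset.prod_empty] at hfind
      linarith
    obtain ⟨q, hq⟩ := Nat.exists_eq_succ_of_ne_zero hm0
    have h1 : f q < a := not_le.1 (Nat.find_min hex (by omega : q < Nat.find hex))
    have h2 : f m = f q * (1 + g q) := by
      rw [hq]; simp only [hf]; rw [Finset.prod_range_succ]
    have h3 : g q ≤ 1 / (M : ℝ) := by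
      simp only [hg]
      split_ifs with h
      · exact one_div_le_one_div_of_le hM0 (by exact_mod_cast h.2.le)
      · positivity
    rw [h2]
    calc f q * (1 + g q) ≤ a * (1 + 1 / (M : ℝ)) := by
          have := hg0 q
          gcongr
      _ < b := hM3

/-- The converse: an almost perfect number which is not a power of `2` gives an odd `n ≥ 3`
such that `a(n)` is neither `3` nor a power of `2`. -/
theorem converse (k0 : ℕ) (h : sg k0 + 1 = 2 * k0) (hk : ¬ ∃ j, k0 = 2 ^ j) :
    ∃ n, 3 ≤ n ∧ Odd n ∧ sg k0 < 2 * k0 ∧ 2 * (k0 * n) ≤ sg (k0 * n) ∧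
      ∀ i, 2 ^ i ≤ k0 → sg (2 ^ i * n) < 2 * (2 ^ i * n) := by
  have hk00 : k0 ≠ 0 := by rintro rfl; simp [sg] at h
  have hk01 : k0 ≠ 1 := fun h1 => hk ⟨0, by simpa using h1⟩
  have hk02 : k0 ≠ 2 := fun h1 => hk ⟨1, by simpa using h1⟩
  set j := Nat.log 2 k0 with hj
  have h1 : 2 ^ j ≤ k0 := Nat.pow_log_le_self 2 hk00
  have h2 : k0 < 2 ^ (j + 1) := Nat.lt_pow_succ_log_self (by norm_num) k0
  have h3 : 2 ^ j < k0 := lt_of_le_of_ne h1 fun e => hk ⟨j, e.symm⟩
  have hk0r : (3 : ℝ) ≤ k0 := by exact_mod_cast (by omega : 3 ≤ k0)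
  have hjr : (1 : ℝ) ≤ 2 ^ j := one_le_pow₀ (by norm_num)
  have h3r : (2 : ℝ) ^ j + 1 ≤ k0 := by exact_mod_cast h3
  have hab : 2 * (k0 : ℝ) / (2 * k0 - 1) < 2 * 2 ^ j / (2 * 2 ^ j - 1) := by
    rw [div_lt_div_iff₀ (by linarith) (by linarith)]
    nlinarith
  have ha : 1 < 2 * (k0 : ℝ) / (2 * k0 - 1) := by
    rw [lt_div_iff₀ (by linarith)]; linarith
  obtain ⟨S, hS, hS1, hS2⟩ := window k0 _ _ ha hab
  set n := ∏ p ∈ S, p with hn
  have hn0 : 0 < n := Finset.prod_pos fun p hp => (hS p hp).1.pos
  have hn0r : (0 : ℝ) < n := by exact_mod_cast hn0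
  have hsgn : sg n = ∏ p ∈ S, (p + 1) := sg_prod S fun p hp => (hS p hp).1
  have hratio : (sg n : ℝ) = (∏ p ∈ S, (1 + 1 / (p : ℝ))) * n := by
    rw [hsgn, hn]
    push_cast
    rw [← Finset.prod_mul_distrib]
    refine Finset.prod_congr rfl fun p hp => ?_
    have : (p : ℝ) ≠ 0 := by exact_mod_cast (hS p hp).1.ne_zero
    field_simp
    try ring
  have hodd : Odd n := by
    rw [hn]
    refine Finset.prod_induction _ Odd (fun a b ha hb => ha.mul hb) odd_one fun p hp => ?_
    exact (hS p hp).1.odd_of_ne_two (by have := (hS p hp).2; omega)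
  have hcop : Nat.Coprime k0 n := Nat.Coprime.prod_right fun p hp => by
    rw [Nat.coprime_comm, (hS p hp).1.coprime_iff_not_dvd]
    intro hd
    have := Nat.le_of_dvd (by omega) hd
    have := (hS p hp).2
    omega
  have hn3 : 3 ≤ n := by
    rcases S.eq_empty_or_nonempty with he | ⟨p, hp⟩
    · rw [he, Finset.prod_empty] at hS1
      linarith
    · have : p ∣ n := Finset.dvd_prod_of_mem _ hp
      have := Nat.le_of_dvd hn0 this
      have := (hS p hp).2
      omega
  have hsum : ∀ {m : ℕ}, Nat.Coprime m n → sg (m * n) = sg m * sg n := fun hc =>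
    hc.sum_divisors_mul
  have hsgk : (sg k0 : ℝ) = 2 * k0 - 1 := by
    have : ((sg k0 + 1 : ℕ) : ℝ) = ((2 * k0 : ℕ) : ℝ) := by rw [h]
    push_cast at this; linarith
  refine ⟨n, hn3, hodd, by omega, ?_, fun i hi => ?_⟩
  · rw [hsum hcop]
    have : (2 * (k0 * n) : ℝ) ≤ sg k0 * sg n := by
      rw [hratio, hsgk]
      have h5 := hS1
      rw [div_le_iff₀ (by linarith)] at h5
      nlinarith
    exact_mod_cast this
  · have hc2 : Nat.Coprime (2 ^ i) n := Nat.Coprime.pow_left i (Nat.coprime_two_left.2 hodd)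
    rw [hsum hc2]
    have hsg2 : sg (2 ^ i) + 1 = 2 * 2 ^ i := by
      unfold sg
      rw [Nat.sum_divisors_prime_pow Nat.prime_two]
      have := Nat.geomSum_eq (m := 2) le_rfl (i + 1)
      rw [this, pow_succ]
      have : 1 ≤ 2 ^ i := Nat.one_le_two_pow
      omega
    have hsg2r : (sg (2 ^ i) : ℝ) = 2 * 2 ^ i - 1 := by
      have : ((sg (2 ^ i) + 1 : ℕ) : ℝ) = ((2 * 2 ^ i : ℕ) : ℝ) := by rw [hsg2]
      push_cast at this; linarith
    have hij : (2 : ℝ) ^ i ≤ 2 ^ j := by
      have : i ≤ j := Nat.le_log_of_pow_le (by norm_num) hi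
      exact pow_le_pow_right₀ (by norm_num) this
    have hi1 : (1 : ℝ) ≤ 2 ^ i := one_le_pow₀ (by norm_num)
    have : (sg (2 ^ i) * sg n : ℝ) < 2 * (2 ^ i * n) := by
      rw [hratio, hsg2r]
      have h5 := hS2
      have h6 : (2 * (2 : ℝ) ^ j) / (2 * 2 ^ j - 1) ≤ (2 * 2 ^ i) / (2 * 2 ^ i - 1) := by
        rw [div_le_div_iff₀ (by linarith) (by linarith)]
        nlinarith
      have h7 := h5.trans_le h6
      rw [lt_div_iff₀ (by linarith)] at h7
      nlinarith
    exact_mod_cast this

end Pool.Agent.W6h22.AP
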